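import Mathlib
import Pool.Agent.Q41.TT.Fin7
import Pool.Agent.Q41.TT.Inv

/-!
# Truncated theta tails over Rogers-Ramanujan products

For all `k ≥ 1` and `1 ≤ S ≤ 6` the series `(-1) ^ k T k S / (q, q ^ 4; q ^ 5)_∞` and
`(-1) ^ k T k S / (q ^ 2, q ^ 3; q ^ 5)_∞` have non-negative coefficients.
-/

namespace Pool.Agent.Results.MP_c002f6_nt.NonNegativity

open PowerSeries PowerSeries.WithPiTopology Pool.Agent.Q41.TT

/-- the series `T k S = ∑ (-1) ^ j q ^ (7 j (j + 1) / 2 - j S) (1 - q ^ ((2 j + 1) S))` over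
`j ≥ k`; for `S ≤ 6` both exponents are at least `j` -/
noncomputable def T (k S : ℕ) : ℤ⟦X⟧ :=
  PowerSeries.mk fun N => ∑ j ∈ Finset.range (N + 1), if k ≤ j then
    (-1) ^ j * ((if 7 * j * (j + 1) / 2 - j * S = N then 1 else 0) -
      (if 7 * j * (j + 1) / 2 - j * S + (2 * j + 1) * S = N then 1 else 0))
  else 0

/-- `(q, q ^ 4; q ^ 5)_∞`: the product of `1 - q ^ m` over the `m ≥ 1` congruent to `1` or `4`
modulo `5` (coefficientwise convergence, integers discrete) -/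
noncomputable def prod14 : ℤ⟦X⟧ :=
  letI : TopologicalSpace ℤ := ⊥
  ∏' i : ℕ, if (i + 1) % 5 = 1 ∨ (i + 1) % 5 = 4 then 1 - X ^ (i + 1) else 1

/-- `(q ^ 2, q ^ 3; q ^ 5)_∞`: the product of `1 - q ^ m` over the `m ≥ 1` congruent to `2` or `3`
modulo `5` (coefficientwise convergence, integers discrete) -/
noncomputable def prod23 : ℤ⟦X⟧ :=
  letI : TopologicalSpace ℤ := ⊥
  ∏' i : ℕ, if (i + 1) % 5 = 2 ∨ (i + 1) % 5 = 3 then 1 - X ^ (i + 1) else 1

/-- the series `F k S` -/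
noncomputable def F (k S : ℕ) : ℤ⟦X⟧ := (-1) ^ k * T k S * invOfUnit prod14 1

/-- the series `G k S` -/
noncomputable def G (k S : ℕ) : ℤ⟦X⟧ := (-1) ^ k * T k S * invOfUnit prod23 1

/-- All coefficients of `F k S` and of `G k S` are non-negative, for every `k ≥ 1` and every
`S` from `1` to `6`.  (The first two clauses say that `F k S` and `G k S` are the quotients
by the two products.) -/
theorem result (k S : ℕ) (hk : 1 ≤ k) (hS1 : 1 ≤ S) (hS6 : S ≤ 6) :
    F k S * prod14 = (-1) ^ k * T k S ∧ G k S * prod23 = (-1) ^ k * T k S ∧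
      (∀ n : ℕ, 0 ≤ coeff n (F k S)) ∧ ∀ n : ℕ, 0 ≤ coeff n (G k S) := by
  have p14 : prod14 = prodInf (fun m => m % 5 = 1 ∨ m % 5 = 4) := rfl
  have p23 : prod23 = prodInf (fun m => m % 5 = 2 ∨ m % 5 = 3) := rfl
  have hT : (-1) ^ k * T k S = Seven.Ts S k := rfl
  refine ⟨?_, ?_, ?_, ?_⟩
  · rw [F, mul_assoc, p14, inv_prodInf, mul_comm (cnt _), prodInf_mul_cnt, mul_one]
  · rw [G, mul_assoc, p23, inv_prodInf, mul_comm (cnt _), prodInf_mul_cnt, mul_one]
  · obtain ⟨R, hR, hc⟩ := B.cnt_div6 (fun m => m % 5 = 1 ∨ m % 5 = 4) (by norm_num)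
      (by norm_num) (by norm_num) (by norm_num)
    have h1 := hR.mul (Seven.F_all hS1 hS6 k hk)
    intro n
    have h2 : F k S = R * (B.E6 * (sr B.p * Seven.Ts S k)) := by
      rw [F, p14, inv_prodInf, hT, hc]; ring
    rw [h2]
    exact h1 n
  · obtain ⟨R, hR, hc⟩ := C.cnt_div (fun m => m % 5 = 2 ∨ m % 5 = 3) (by norm_num)
      (by norm_num) (by norm_num) (by norm_num)
    have h1 := hR.mul (Seven.G_all hS1 hS6 k hk)
    intro n
    have h2 : G k S = R * (C.E8 * (sr C.p * Seven.Ts S k)) := by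
      rw [G, p23, inv_prodInf, hT, hc]; ring
    rw [h2]
    exact h1 n

end Pool.Agent.Results.MP_c002f6_nt.NonNegativity
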